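import Pool.Agent.Lib.MP_fedf83_gt.BTetra
import Pool.Agent.Lib.MP_fedf83_gt.BThin

open Pool.Agent.Lib.MP_fedf83_gt

theorem Pool.Agent.Results.MP_fedf83_gt.BelowHalf.result :
    ∀ n l : ℕ, 2 ≤ l → l ≤ n - 1 → c n l ≤ 9997 / 20000 := by
  intro n l h1 h2
  exact (B.cst_le_codim_one n (by omega)).trans
    ((B.cst_codim_one_anti l h1).trans B.cst_three_two)
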