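import Pool.Agent.Lib.MP_fedf83_gt.KFinal

open Pool.Agent.Lib.MP_fedf83_gt Filter Topology

theorem Pool.Agent.Results.MP_fedf83_gt.Exponent.result (k : ℕ) (hk : 1 ≤ k) :
    Tendsto (fun n : ℕ => Real.log (c n (n - k)).toReal / Real.log n) atTop
      (𝓝 (if k = 1 then -(3 / 4) else -((k : ℝ) - 1 / 2))) :=
  Z.exponent_all k hk
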