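import Pool.Agent.Lib.MP_fedf83_gt.BStrict

open Pool.Agent.Lib.MP_fedf83_gt

theorem Pool.Agent.Results.MP_fedf83_gt.LowerUniform.result :
    ∃ γ : ℝ, 1 < γ ∧ ∀ n : ℕ, 3 ≤ n → ENNReal.ofReal (γ / n) ≤ c n (n - 1) :=
  B.uniform
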