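import Pool.Agent.Lib.MP_fedf83_gt.StairB

open Pool.Agent.Lib.MP_fedf83_gt

namespace Pool.Agent.Results.MP_fedf83_gt.PowerDecay

theorem result :
    ∀ k : ℕ, 1 ≤ k → ∃ C : ℝ, ∀ n l : ℕ, k + 1 ≤ l → l + k ≤ n →
      c n l ≤ ENNReal.ofReal (C * (n : ℝ) ^ (-(k : ℝ) / 2)) :=
  St.power'

end Pool.Agent.Results.MP_fedf83_gt.PowerDecay
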